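import Pool.Agent.X164.Rot2

set_option autoImplicit false

namespace Pool.Agent.Results.MP_093203_gt.NotBall

open Set Metric MeasureTheory
open Pool.Agent.X164.SupportBody
open Pool.Agent.X164.CompleteSym
open Pool.Agent.X164.Rot2

/-- `B` is a translate of a completely symmetric set. -/
def IsTranslateCompSym {m : ℕ} (B : Set (E m)) : Prop :=
  ∃ (A : Set (E m)) (v : E m), IsCompletelySymmetric A ∧ B = (fun x => x + v) '' A

/-- The orthogonal projection of `K` onto `uᗮ`, read in `E 2` through the linear isometry `ι`. -/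
def projCoord (u : E 3) (ι : E 2 →ₗᵢ[ℝ] E 3) (K : Set (E 3)) : Set (E 2) :=
  {x | ι x ∈ (Submodule.span ℝ {u})ᗮ.starProjection '' K}

lemma core (r s σ x w D : ℝ) (hr : 0 < r) (hs : 0 < s) (hσ : 0 < σ) (hx : |x| ≤ 1) (hw : |w| ≤ 1)
    (hxw : |r * x + s * w| ≤ σ)
    (hD : (x - w) ^ 2 ≤ D) (hσ2 : σ ^ 2 = (r + s) ^ 2 - r * s * D) :
    |r * x ^ 3 + s * w ^ 3 - (r * x + s * w) ^ 3 / σ ^ 2| ≤ 16 * (r + s - σ) := by
  have hN : 0 < r + s := by linarith
  have hD0 : 0 ≤ D := le_trans (sq_nonneg _) hD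
  have hrsD : 0 ≤ r * s * D := by positivity
  have hσN : σ ≤ r + s := by
    apply le_of_sq_le_sq _ hN.le
    rw [hσ2]; linarith
  obtain ⟨hx1, hx2⟩ := abs_le.mp hx
  obtain ⟨hw1, hw2⟩ := abs_le.mp hw
  have hx3 : |x ^ 3| ≤ 1 := by rw [abs_pow]; exact pow_le_one₀ (abs_nonneg _) hx
  have hw3 : |w ^ 3| ≤ 1 := by rw [abs_pow]; exact pow_le_one₀ (abs_nonneg _) hw
  obtain ⟨hx31, hx32⟩ := abs_le.mp hx3
  obtain ⟨hw31, hw32⟩ := abs_le.mp hw3
  set F := r * x ^ 3 + s * w ^ 3 - (r * x + s * w) ^ 3 / σ ^ 2 with hF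
  have hσ0 : 0 < σ ^ 2 := by positivity
  -- key estimate
  have hFσ : F * σ ^ 2 = r * s * (x - w) ^ 2 * ((r + s + r) * x + (r + s + s) * w) -
      r * s * D * (r * x ^ 3 + s * w ^ 3) := by
    have h1 : F * σ ^ 2 = (r * x ^ 3 + s * w ^ 3) * σ ^ 2 - (r * x + s * w) ^ 3 := by
      rw [hF]; field_simp
    rw [h1, hσ2]; ring
  have hb1 : |r * s * (x - w) ^ 2 * ((r + s + r) * x + (r + s + s) * w)| ≤
      r * s * D * (3 * (r + s)) := by
    rw [abs_mul, abs_of_nonneg (by positivity : 0 ≤ r * s * (x - w) ^ 2)]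
    apply mul_le_mul
    · gcongr
    · rw [abs_le]; constructor <;> nlinarith
    · exact abs_nonneg _
    · exact hrsD
  have hc1 : r * x ^ 3 ≤ r := by
    have := mul_le_mul_of_nonneg_left hx32 hr.le
    linarith
  have hc2 : -r ≤ r * x ^ 3 := by
    have := mul_le_mul_of_nonneg_left hx31 hr.le
    linarith
  have hc3 : s * w ^ 3 ≤ s := by
    have := mul_le_mul_of_nonneg_left hw32 hs.le
    linarith
  have hc4 : -s ≤ s * w ^ 3 := by
    have := mul_le_mul_of_nonneg_left hw31 hs.le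
    linarith
  have hb2 : |r * s * D * (r * x ^ 3 + s * w ^ 3)| ≤ r * s * D * (r + s) := by
    rw [abs_mul, abs_of_nonneg hrsD]
    apply mul_le_mul_of_nonneg_left _ hrsD
    rw [abs_le]; constructor <;> linarith
  have hb3 : |F| * σ ^ 2 ≤ 4 * (r + s) * (r * s * D) := by
    have h1 : |F| * σ ^ 2 = |F * σ ^ 2| := by rw [abs_mul, abs_of_pos hσ0]
    rw [h1, hFσ]
    refine (abs_sub _ _).trans ?_
    linarith
  have hb4 : r * s * D = (r + s - σ) * (r + s + σ) := by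
    have : r * s * D = (r + s) ^ 2 - σ ^ 2 := by rw [hσ2]; ring
    rw [this]; ring
  have hb5 : r * s * D ≤ 2 * (r + s) * (r + s - σ) := by
    rw [hb4]; nlinarith
  have hb6 : |F| * σ ^ 2 ≤ 8 * (r + s) ^ 2 * (r + s - σ) := by
    calc |F| * σ ^ 2 ≤ 4 * (r + s) * (r * s * D) := hb3
      _ ≤ 4 * (r + s) * (2 * (r + s) * (r + s - σ)) := by gcongr
      _ = _ := by ring
  by_cases hcase : (r + s) ^ 2 ≤ 2 * σ ^ 2
  · have h7 : |F| * σ ^ 2 ≤ 16 * (r + s - σ) * σ ^ 2 := by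
      have h8 : 0 ≤ r + s - σ := by linarith
      nlinarith
    exact le_of_mul_le_mul_right h7 hσ0
  · push Not at hcase
    -- σ small compared with r + s
    have hσs : σ ≤ (3 / 4) * (r + s) := by
      apply le_of_sq_le_sq _ (by positivity)
      have h9 : (3 / 4 * (r + s)) ^ 2 = 9 / 16 * (r + s) ^ 2 := by ring
      have h10 := sq_nonneg (r + s)
      rw [h9]
      linarith
    have h1 : |(r * x + s * w) ^ 3 / σ ^ 2| ≤ σ := by
      rw [abs_div, abs_pow, abs_of_pos hσ0, div_le_iff₀ hσ0]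
      calc |r * x + s * w| ^ 3 ≤ σ ^ 3 := pow_le_pow_left₀ (abs_nonneg _) hxw 3
        _ = σ * σ ^ 2 := by ring
    have h2 : |r * x ^ 3 + s * w ^ 3| ≤ r + s := by
      rw [abs_le]; constructor <;> linarith
    have h3 : |F| ≤ (r + s) + σ := by
      rw [hF]
      exact (abs_sub _ _).trans (add_le_add h2 h1)
    linarith

/-- the cubic part -/
noncomputable def cub (y : E 3) : ℝ := (y 0) ^ 3 / ‖y‖ ^ 2

/-- the support function of the body -/
noncomputable def hK (y : E 3) : ℝ := ‖y‖ + (1 / 16) * cub y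

lemma cub_smul (c : ℝ) (hc : 0 < c) (y : E 3) : cub (c • y) = c * cub y := by
  unfold cub
  rw [norm_smul, Real.norm_eq_abs, abs_of_pos hc]
  by_cases hy : ‖y‖ = 0
  · simp [hy]
  · simp
    field_simp

lemma coord_le (y : E 3) : |y 0| ≤ ‖y‖ := by
  rw [← Real.norm_eq_abs]; exact PiLp.norm_apply_le y 0

lemma abs_cub_le (y : E 3) : |cub y| ≤ ‖y‖ := by
  unfold cub
  by_cases hy : ‖y‖ = 0
  · simp [hy]
  · have h0 : 0 < ‖y‖ := lt_of_le_of_ne (norm_nonneg _) (Ne.symm hy)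
    rw [abs_div, abs_pow, abs_of_pos (by positivity : 0 < ‖y‖ ^ 2), div_le_iff₀ (by positivity)]
    calc |y 0| ^ 3 ≤ ‖y‖ ^ 3 := pow_le_pow_left₀ (abs_nonneg _) (coord_le y) 3
      _ = ‖y‖ * ‖y‖ ^ 2 := by ring

lemma cub_add (y z : E 3) : |cub y + cub z - cub (y + z)| ≤ 16 * (‖y‖ + ‖z‖ - ‖y + z‖) := by
  by_cases hy : y = 0
  · subst hy; simp [cub]
  by_cases hz : z = 0
  · subst hz; simp [cub]
  have hr : 0 < ‖y‖ := norm_pos_iff.mpr hy
  have hs : 0 < ‖z‖ := norm_pos_iff.mpr hz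
  by_cases hyz : y + z = 0
  · have h1 : cub (y + z) = 0 := by rw [hyz]; simp [cub]
    rw [h1, sub_zero, hyz, norm_zero, sub_zero]
    calc |cub y + cub z| ≤ |cub y| + |cub z| := abs_add_le _ _
      _ ≤ ‖y‖ + ‖z‖ := add_le_add (abs_cub_le y) (abs_cub_le z)
      _ ≤ 16 * (‖y‖ + ‖z‖) := by linarith
  have hσ : 0 < ‖y + z‖ := norm_pos_iff.mpr hyz
  have hcore := core ‖y‖ ‖z‖ ‖y + z‖ (y 0 / ‖y‖) (z 0 / ‖z‖)
    (2 - 2 * inner ℝ y z / (‖y‖ * ‖z‖)) hr hs hσ
    (by rw [abs_div, abs_norm, div_le_one hr]; exact coord_le y)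
    (by rw [abs_div, abs_norm, div_le_one hs]; exact coord_le z)
    (by
      have h1 : ‖y‖ * (y 0 / ‖y‖) + ‖z‖ * (z 0 / ‖z‖) = (y + z) 0 := by
        simp; field_simp
      rw [h1]; exact coord_le _)
    (by
      have h1 : |(‖y‖⁻¹ • y - ‖z‖⁻¹ • z) 0| ≤ ‖‖y‖⁻¹ • y - ‖z‖⁻¹ • z‖ := coord_le _
      have h2 : (‖y‖⁻¹ • y - ‖z‖⁻¹ • z) 0 = y 0 / ‖y‖ - z 0 / ‖z‖ := by
        simp; field_simp
      have h3 : ‖‖y‖⁻¹ • y - ‖z‖⁻¹ • z‖ ^ 2 = 2 - 2 * inner ℝ y z / (‖y‖ * ‖z‖) := by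
        rw [norm_sub_sq_real, norm_smul, norm_smul, inner_smul_left, inner_smul_right]
        simp only [norm_inv, norm_norm, conj_trivial]
        rw [inv_mul_cancel₀ hr.ne', inv_mul_cancel₀ hs.ne']
        field_simp
        ring
      rw [← h3, ← h2, ← sq_abs]
      exact pow_le_pow_left₀ (abs_nonneg _) h1 2)
    (by
      rw [norm_add_sq_real]
      field_simp
      ring)
  have e1 : ‖y‖ * (y 0 / ‖y‖) ^ 3 = cub y := by unfold cub; field_simp
  have e2 : ‖z‖ * (z 0 / ‖z‖) ^ 3 = cub z := by unfold cub; field_simp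
  have e3 : (‖y‖ * (y 0 / ‖y‖) + ‖z‖ * (z 0 / ‖z‖)) ^ 3 / ‖y + z‖ ^ 2 = cub (y + z) := by
    unfold cub
    have h1 : ‖y‖ * (y 0 / ‖y‖) + ‖z‖ * (z 0 / ‖z‖) = (y + z) 0 := by
      simp; field_simp
    rw [h1]
  rw [e1, e2, e3] at hcore
  exact hcore

lemma hK_sublinear : Sublinear hK where
  smul c hc y := by
    unfold hK
    rw [cub_smul c hc, norm_smul, Real.norm_eq_abs, abs_of_pos hc]
    ring
  add_le y z := by
    unfold hK
    have h1 := cub_add y z
    have h2 := (abs_le.mp h1).1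
    linarith

lemma hK_le (y : E 3) : hK y ≤ 2 * ‖y‖ := by
  unfold hK
  have h1 := abs_le.mp (abs_cub_le y)
  have h2 := norm_nonneg y
  linarith

lemma hK_ge (y : E 3) : (1 / 2) * ‖y‖ ≤ hK y := by
  unfold hK
  have h1 := abs_le.mp (abs_cub_le y)
  have h2 := norm_nonneg y
  linarith

lemma proj_body' {m n : ℕ} (h : E n → ℝ) (hh : Sublinear h) (ι : E m →ₗᵢ[ℝ] E n)
    (L : Submodule ℝ (E n)) (hL : LinearMap.range ι.toLinearMap = L) :
    {x : E m | ι x ∈ L.starProjection '' body h} = body (fun y => h (ι y)) := by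
  subst hL
  exact proj_body h hh ι

/-- coordinates of the first coordinate functional on a plane -/
noncomputable def m0 (ι : E 2 →ₗᵢ[ℝ] E 3) : ℝ := (ι (EuclideanSpace.single 0 1)) 0
noncomputable def m1 (ι : E 2 →ₗᵢ[ℝ] E 3) : ℝ := (ι (EuclideanSpace.single 1 1)) 0

lemma iota_zero (ι : E 2 →ₗᵢ[ℝ] E 3) (y : E 2) : (ι y) 0 = m0 ι * y 0 + m1 ι * y 1 := by
  have hy : y = y 0 • EuclideanSpace.single 0 (1 : ℝ) + y 1 • EuclideanSpace.single 1 (1 : ℝ) := by
    ext i
    fin_cases i <;> simp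
  conv_lhs => rw [hy, map_add, map_smul, map_smul]
  simp [m0, m1]
  ring

/-- the part of the support function of the planar projection without linear term -/
noncomputable def hA (a b : ℝ) (y : E 2) : ℝ :=
  ‖y‖ + (1 / 16) * ((a * y 0 + b * y 1) ^ 3 -
    (3 / 4) * (a ^ 2 + b ^ 2) * ‖y‖ ^ 2 * (a * y 0 + b * y 1)) / ‖y‖ ^ 2

lemma hK_iota (ι : E 2 →ₗᵢ[ℝ] E 3) (y : E 2) :
    hK (ι y) = hA (m0 ι) (m1 ι) y +
      (3 / 64) * (m0 ι ^ 2 + m1 ι ^ 2) * (m0 ι * y 0 + m1 ι * y 1) := by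
  unfold hK hA cub
  rw [ι.norm_map, iota_zero]
  by_cases hy : ‖y‖ = 0
  · have h1 : y = 0 := norm_eq_zero.mp hy
    subst h1
    simp
  · field_simp
    ring

lemma sq3 : (Real.sqrt 3) ^ 2 = 3 := Real.sq_sqrt (by norm_num)

lemma rotcond : (-(1 / 2 : ℝ)) ^ 2 + (Real.sqrt 3 / 2) ^ 2 = 1 := by
  rw [div_pow, sq3]; norm_num

lemma hA_rot (a b : ℝ) (y : E 2) :
    hA a b (rot (-(1 / 2)) (Real.sqrt 3 / 2) rotcond y) = hA a b y := by
  unfold hA
  rw [LinearIsometryEquiv.norm_map, rot_apply_zero, rot_apply_one]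
  congr 3
  have hn : ‖y‖ ^ 2 = y 0 ^ 2 + y 1 ^ 2 := by
    rw [EuclideanSpace.norm_sq_eq]; simp [Fin.sum_univ_two]
  rw [hn]
  have h3 := sq3
  set t := Real.sqrt 3
  linear_combination ((-3 * (a * y 0 + b * y 1) * (-a * y 1 + b * y 0) ^ 2 +
    t * (-a * y 1 + b * y 0) ^ 3) / 8) * h3

lemma body_rot {φ : E 2 → ℝ} (R : E 2 ≃ₗᵢ[ℝ] E 2) (hφ : ∀ y, φ (R y) = φ y) :
    R '' body φ = body φ := by
  apply Subset.antisymm
  · rintro _ ⟨x, hx, rfl⟩ y
    have h1 := hx (R.symm y)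
    rw [← R.inner_map_map, R.apply_symm_apply, ← hφ, R.apply_symm_apply] at h1
    exact h1
  · intro x hx
    refine ⟨R.symm x, fun y => ?_, R.apply_symm_apply x⟩
    have h1 := hx (R y)
    rw [hφ, ← R.apply_symm_apply x, R.inner_map_map] at h1
    exact h1

lemma body_translate (φ : E 2 → ℝ) (v : E 2) :
    body (fun y => φ y + inner ℝ v y) = (fun x => x + v) '' body φ := by
  ext x
  constructor
  · intro hx
    refine ⟨x - v, fun y => ?_, by simp⟩
    have := hx y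
    rw [inner_sub_left]
    linarith
  · rintro ⟨z, hz, rfl⟩ y
    have := hz y
    rw [inner_add_left]
    linarith

lemma not_ball : ¬ IsBall (body hK) := by
  rintro ⟨c, ρ, hρ, hc⟩
  have key : ∀ y, hK y = inner ℝ c y + ρ * ‖y‖ := by
    intro y
    apply le_antisymm
    · obtain ⟨k, hk, hky⟩ := exists_attained hK hK_sublinear y
      rw [hc, mem_closedBall, dist_eq_norm] at hk
      rw [← hky]
      have h1 : inner ℝ k y = inner ℝ c y + inner ℝ (k - c) y := by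
        rw [inner_sub_left]; ring
      rw [h1]
      have h2 := real_inner_le_norm (k - c) y
      have h3 := norm_nonneg y
      nlinarith
    · by_cases hy : y = 0
      · subst hy; simp [hK, cub]
      · have hyn : 0 < ‖y‖ := norm_pos_iff.mpr hy
        have hmem : c + (ρ / ‖y‖) • y ∈ body hK := by
          rw [hc, mem_closedBall, dist_eq_norm, add_sub_cancel_left, norm_smul, Real.norm_eq_abs,
            abs_of_pos (by positivity), div_mul_cancel₀ _ hyn.ne']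
        have h1 := hmem y
        rw [inner_add_left, inner_smul_left, real_inner_self_eq_norm_sq] at h1
        simp only [conj_trivial] at h1
        have h2 : ρ / ‖y‖ * ‖y‖ ^ 2 = ρ * ‖y‖ := by field_simp
        linarith
  have odd : ∀ y, (1 / 16) * cub y = inner ℝ c y := by
    intro y
    have h1 := key y
    have h2 := key (-y)
    rw [inner_neg_right, norm_neg] at h2
    have h3 : cub (-y) = - cub y := by
      unfold cub; rw [norm_neg]; simp; ring
    unfold hK at h1 h2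
    rw [h3, norm_neg] at h2
    linarith
  have e0 := odd (EuclideanSpace.single 0 1)
  have e1 := odd (EuclideanSpace.single 1 1)
  have e2 := odd ((3 : ℝ) • EuclideanSpace.single 0 1 + (4 : ℝ) • EuclideanSpace.single 1 1)
  rw [inner_add_right, inner_smul_right, inner_smul_right] at e2
  rw [← e0, ← e1] at e2
  have hn : ‖((3 : ℝ) • EuclideanSpace.single 0 1 + (4 : ℝ) • EuclideanSpace.single 1 1 : E 3)‖ ^ 2
      = 25 := by
    rw [EuclideanSpace.norm_sq_eq]
    simp [Fin.sum_univ_three]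
    norm_num
  unfold cub at e2
  rw [hn] at e2
  simp at e2
  norm_num at e2

/-- There is a convex body in three-space that is not a Euclidean ball, all of whose
projections onto planes `uᗮ` are translates of completely symmetric sets. -/
theorem result : ∃ K : Set (E 3), IsCompact K ∧ Convex ℝ K ∧ (interior K).Nonempty ∧
    (∀ u : E 3, ‖u‖ = 1 → ∀ ι : E 2 →ₗᵢ[ℝ] E 3,
      LinearMap.range ι.toLinearMap = (Submodule.span ℝ {u})ᗮ →
      IsTranslateCompSym (projCoord u ι K)) ∧ ¬ IsBall K := by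
  refine ⟨body hK, body_compact hK 2 (by norm_num) hK_le, body_convex hK,
    body_interior hK (1 / 2) (by norm_num) hK_ge, ?_, not_ball⟩
  intro u _ ι hι
  have h1 : projCoord u ι (body hK) = body (fun y => hK (ι y)) := by
    exact proj_body' hK hK_sublinear ι _ hι
  rw [h1]
  set v : E 2 := WithLp.toLp 2 ![(3 / 64) * (m0 ι ^ 2 + m1 ι ^ 2) * m0 ι,
    (3 / 64) * (m0 ι ^ 2 + m1 ι ^ 2) * m1 ι] with hv
  refine ⟨body (hA (m0 ι) (m1 ι)), v, ?_, ?_⟩
  · have hs : Real.sqrt 3 / 2 ≠ 0 := by positivity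
    exact completelySymmetric_of_rigid (by norm_num) _ (rigid_of _ _ rotcond hs)
      (fun v hv => rot_fix _ _ rotcond hs v hv) _ (body_rot _ (hA_rot _ _))
  · rw [← body_translate]
    congr 1
    funext y
    rw [hK_iota]
    congr 1
    rw [hv]
    simp [PiLp.inner_apply, Fin.sum_univ_two]
    ring

end Pool.Agent.Results.MP_093203_gt.NotBall
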